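import Pool.Agent.NH29.GN.Fin3
import Pool.Agent.NH29.GN.U1
import Pool.Agent.NH29.GN.U2
import Pool.Agent.NH29.GN.U3
import Pool.Agent.NH29.GN.U4
import Pool.Agent.NH29.GN.RU
import Pool.Agent.NH29.GN.Hilb
import Pool.Agent.NH29.GN.Der
import Pool.Agent.NH29.GN.Alg
import Pool.Agent.NH29.GN.Ncz
import Pool.Agent.NH29.GN.Int
import Pool.Agent.NH29.GN.Rel
import Pool.Agent.NH29.GN.Lin
import Pool.Agent.NH29.GN.Stu
import Pool.Agent.NH29.GN.Fine
import Pool.Agent.NH29.GN.Ueu

/-!
MP_26d9ad_nt, Q1: uniform finiteness of the integral points on the complements of `n + 2` or more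
Zariski-general hypersurface sections of an arbitrary projective variety of dimension `n`, and of
its general complete intersections.

Let `K` be an algebraically closed field of characteristic `0`, and `k` a subfield of `K` (for
instance `ℚ`, a number field, or `K`). Let `V` be a closed subset of projective space, given by
forms with coefficients in `k`, of dimension at most `n`: there are `n + 1` linear forms over `k`
without common zero on `V`. Let `q ≥ n + 2`, and let `d_1, …, d_q` be positive integers, such that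
at most `2 (q - n - 1)` of them are equal to `1` (for `q = n + 2`: at most two of them), or such
that for `1 ≤ m ≤ n` the sum of any `q - 1 - m` of them is at least `n - m + n / m`.

THEOREM. There is a nonzero polynomial `Φ`, with coefficients in `k`, in the coefficients of `q`
forms of degrees `d_1, …, d_q`, with the following property. Let `F = (F_1, …, F_q)` be forms of
degrees `d_1, …, d_q` with coefficients in `K`, such that `Φ (F) ≠ 0`. Let `C` be a proper subset
of `{1, …, q}`, and let `U` be the set of the points of `V` at which `F_c = 0` for `c ∈ C` and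
`F_b ≠ 0` for `b ∉ C`. (For `C = ∅` it is the complement in `V` of the union of the hypersurfaces.)
(1) `U` has only finitely many points over every finitely generated subring `R` of `K`. That is, at
    only finitely many `K`-points of `U` all the quotients of the monomials of degree
    `∑_{b ∉ C} d_b` by `∏_{b ∉ C} F_b` are in `R` (if `C` is empty and `V` is defined over `R`
    these are the functions that generate the coordinate ring of `U`).
(2) The number of these points is bounded by a number `N` that depends only on `V`, the `d_i`, and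
    `R`, for all `F` with coefficients in `R` and `Φ (F) ≠ 0`, and all `C`.
(3) For every finitely generated subgroup `Γ` of the multiplicative group of `K`, the number of the
    `K`-points of `U` at which all `F_b ^ (d_b') / F_b' ^ (d_b)` (`b, b' ∉ C`) are in `Γ` is at most
    a number `N` that depends only on `V`, the `d_i`, and `Γ`, for all `F` with coefficients in `K`
    and `Φ (F) ≠ 0`, and all `C`. (No condition is imposed on the field of definition of the points.)
-/

set_option autoImplicit false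

namespace Pool.Agent.Results.MP_26d9ad_nt.GeneralComplements

open MvPolynomial
open scoped LinearAlgebra.Projectivization

variable {k K : Type} [Field k] [Field K] [Algebra k K] {M q : ℕ}

/-- The closed subset of the projective space of dimension `M` given by the forms in `V` has
dimension at most `n`: there are `n + 1` linear forms without common zero on it. -/
def DimLE (K : Type) [Field K] [Algebra k K] (V : Set (MvPolynomial (Fin (M + 1)) k)) (n : ℕ) :
    Prop :=
  ∃ ℓ : Fin (n + 1) → MvPolynomial (Fin (M + 1)) k, (∀ j, (ℓ j).IsHomogeneous 1) ∧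
    ∀ y : Fin (M + 1) → K, (∀ H ∈ V, aeval y H = 0) → (∀ j, aeval y (ℓ j) = 0) → y = 0

/-- The indices of the coefficients of `q` forms of degrees `d i` in `M + 1` variables. -/
abbrev Index (M : ℕ) {q : ℕ} (d : Fin q → ℕ) : Type :=
  (i : Fin q) × {β : Fin (M + 1) →₀ ℕ // β.degree = d i}

/-- `F` is a family of forms of degrees `d i`, and `Φ (F) ≠ 0`. -/
def General {d : Fin q → ℕ} (Φ : MvPolynomial (Index M d) k)
    (F : Fin q → MvPolynomial (Fin (M + 1)) K) : Prop :=
  (∀ i, (F i).IsHomogeneous (d i)) ∧ aeval (fun s : Index M d => coeff s.2.1 (F s.1)) Φ ≠ 0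

/-- The points of `U`. -/
def Points (V : Set (MvPolynomial (Fin (M + 1)) k)) (F : Fin q → MvPolynomial (Fin (M + 1)) K)
    (C : Finset (Fin q)) : Set (ℙ K (Fin (M + 1) → K)) :=
  {P | (∀ H ∈ V, aeval P.rep H = 0) ∧ (∀ c ∈ C, eval P.rep (F c) = 0) ∧
    ∀ b, b ∉ C → eval P.rep (F b) ≠ 0}

/-- The points of `U` over the ring `R`. -/
def IntegralPoints (V : Set (MvPolynomial (Fin (M + 1)) k))
    (F : Fin q → MvPolynomial (Fin (M + 1)) K) (d : Fin q → ℕ) (C : Finset (Fin q))
    (R : Subring K) : Set (ℙ K (Fin (M + 1) → K)) :=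
  {P ∈ Points V F C | ∀ α : Fin (M + 1) →₀ ℕ, α.degree = ∑ b ∈ Cᶜ, d b →
    (∏ i, P.rep i ^ α i) / ∏ b ∈ Cᶜ, eval P.rep (F b) ∈ R}

/-- The points of `U` at which the quotients of the forms are in the group `Γ`. -/
def UnitPoints (V : Set (MvPolynomial (Fin (M + 1)) k))
    (F : Fin q → MvPolynomial (Fin (M + 1)) K) (d : Fin q → ℕ) (C : Finset (Fin q))
    (Γ : Subgroup Kˣ) : Set (ℙ K (Fin (M + 1) → K)) :=
  {P ∈ Points V F C | ∀ b b', b ∉ C → b' ∉ C → ∃ γ ∈ Γ,
    eval P.rep (F b) ^ d b' / eval P.rep (F b') ^ d b = (γ : K)}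

/-- The conclusion of the theorem. -/
def Conclusion (K : Type) [Field K] [Algebra k K] (V : Set (MvPolynomial (Fin (M + 1)) k))
    (d : Fin q → ℕ) : Prop :=
  ∃ Φ : MvPolynomial (Index M d) k, Φ ≠ 0 ∧
    -- (1)
    (∀ F : Fin q → MvPolynomial (Fin (M + 1)) K, General Φ F →
      ∀ C : Finset (Fin q), C ≠ Finset.univ → ∀ T : Finset K,
        (IntegralPoints V F d C (Subring.closure (T : Set K))).Finite) ∧
    -- (2)
    (∀ T : Finset K, ∃ N : ℕ, ∀ F : Fin q → MvPolynomial (Fin (M + 1)) K, General Φ F →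
      (∀ i β, coeff β (F i) ∈ Subring.closure (T : Set K)) →
      ∀ C : Finset (Fin q), C ≠ Finset.univ →
        (IntegralPoints V F d C (Subring.closure (T : Set K))).encard ≤ N) ∧
    -- (3)
    ∀ Γ : Subgroup Kˣ, Γ.FG → ∃ N : ℕ, ∀ F : Fin q → MvPolynomial (Fin (M + 1)) K,
      General Φ F → ∀ C : Finset (Fin q), C ≠ Finset.univ → (UnitPoints V F d C Γ).encard ≤ N

section Proof

open Pool.Agent.NH29.GN

theorem unitPoints_eq {V : Set (MvPolynomial (Fin (M + 1)) k)} {d : Fin q → ℕ}
    {F : Fin q → MvPolynomial (Fin (M + 1)) K} (hF : ∀ i, (F i).IsHomogeneous (d i))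
    (C : Finset (Fin q)) (Γ : Subgroup Kˣ) :
    UnitPoints V F d C Γ =
      {P | Fn.Good V C (fun s : Idx M d => coeff s.2.1 (F s.1)) Γ P} := by
  ext P
  simp only [UnitPoints, Points, Fn.Good, Set.mem_ofPred_eq, Fn.fv_eq hF, and_assoc]

theorem integral_subset {V : Set (MvPolynomial (Fin (M + 1)) k)} {d : Fin q → ℕ}
    {F : Fin q → MvPolynomial (Fin (M + 1)) K} (hF : ∀ i, (F i).IsHomogeneous (d i))
    (C : Finset (Fin q)) (R R' : Subring K) (hRR : R ≤ R') (hR : ∀ i β, coeff β (F i) ∈ R')
    (Γ : Subgroup Kˣ) (hΓ : ∀ u : Kˣ, (u : K) ∈ R' → ((u⁻¹ : Kˣ) : K) ∈ R' → u ∈ Γ) :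
    IntegralPoints V F d C R ⊆ UnitPoints V F d C Γ := by
  classical
  rintro P ⟨hP, h⟩
  refine ⟨hP, fun b b' hb hb' => ?_⟩
  have h1 : ∀ b b', b ∉ C → b' ∉ C →
      eval P.rep (F b) ^ d b' / eval P.rep (F b') ^ d b ∈ R' := fun b b' _ hb' =>
    Fn.quot_mem hF hR Cᶜ (fun c hc => hP.2.2 c (Finset.mem_compl.1 hc))
      (fun α hα => hRR (h α hα)) b b' (Finset.mem_compl.2 hb')
  have h2 : eval P.rep (F b) ^ d b' / eval P.rep (F b') ^ d b ≠ 0 :=
    div_ne_zero (pow_ne_zero _ (hP.2.2 b hb)) (pow_ne_zero _ (hP.2.2 b' hb'))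
  refine ⟨Units.mk0 _ h2, hΓ _ (h1 b b' hb hb') ?_, rfl⟩
  rw [Units.val_inv_eq_inv_val, Units.val_mk0, inv_div]
  exact h1 b' b hb' hb

theorem conclusion [IsAlgClosed K] [CharZero K] {n : ℕ}
    {V : Set (MvPolynomial (Fin (M + 1)) k)} (hV : ∀ H ∈ V, ∃ e, H.IsHomogeneous e)
    (hn : DimLE K V n) {d : Fin q → ℕ} (hd : ∀ i, 1 ≤ d i) (hq : n + 2 ≤ q)
    (h : ∀ C : Finset (Fin q), C ≠ Finset.univ → Num2 n d C) : Conclusion K V d := by
  classical
  have hk : CharZero k := (algebraMap k K).charZero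
  obtain ⟨ℓ, hℓ, hℓ0⟩ := hn
  have hI : IntStm := int (ncz alg) alg
  obtain ⟨Φ, hΦ, h1⟩ := Fn.unif (K := K) stb (stc2 der alg hI rel lin2 hilb) stu
    (ueu fine K (u4 (u2 u1) u3 K)) hV hℓ (Fn.noZero_of_points hℓ0) (by omega) hd h
  have h2 : ∀ T : Finset K, ∃ N : ℕ, ∀ F : Fin q → MvPolynomial (Fin (M + 1)) K, General Φ F →
      (∀ i β, coeff β (F i) ∈ Subring.closure (T : Set K)) →
      ∀ C : Finset (Fin q), C ≠ Finset.univ → ∀ R : Subring K,
        R ≤ Subring.closure (T : Set K) → (IntegralPoints V F d C R).encard ≤ N := by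
    intro T
    obtain ⟨Γ, hΓ, hΓT⟩ := ru K T
    obtain ⟨N, hN⟩ := h1 Γ hΓ
    refine ⟨N, fun F hF hFT C hC R hR => ?_⟩
    refine (Set.encard_le_encard (integral_subset hF.1 C R _ hR hFT Γ hΓT)).trans ?_
    rw [unitPoints_eq hF.1]
    exact hN _ hF.2 C hC
  refine ⟨Φ, hΦ, fun F hF C hC T => ?_, fun T => ?_, fun Γ hΓ => ?_⟩
  · -- all coefficients of the forms
    let T' : Finset K := T ∪ Finset.univ.image fun s : Idx M d => coeff s.2.1 (F s.1)
    have hT : ∀ i β, coeff β (F i) ∈ Subring.closure (T' : Set K) := by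
      intro i β
      by_cases hβ : β.degree = d i
      · refine Subring.subset_closure ?_
        rw [Finset.mem_coe, Finset.mem_union, Finset.mem_image]
        exact Or.inr ⟨⟨i, ⟨β, hβ⟩⟩, Finset.mem_univ _, rfl⟩
      · rw [(hF.1 i).coeff_eq_zero hβ]
        exact Subring.zero_mem _
    obtain ⟨N, hN⟩ := h2 T'
    refine Set.finite_of_encard_le_coe (hN F hF hT C hC _ (Subring.closure_mono ?_))
    rw [Finset.coe_union]
    exact Set.subset_union_left
  · obtain ⟨N, hN⟩ := h2 T
    exact ⟨N, fun F hF hFT C hC => hN F hF hFT C hC _ le_rfl⟩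
  · obtain ⟨N, hN⟩ := h1 Γ hΓ
    refine ⟨N, fun F hF C hC => ?_⟩
    rw [unitPoints_eq hF.1]
    exact hN _ hF.2 C hC

end Proof

theorem result {k K : Type} [Field k] [Field K] [Algebra k K] [IsAlgClosed K] [CharZero K]
    {M n q : ℕ}
    -- the variety
    (V : Set (MvPolynomial (Fin (M + 1)) k)) (hV : ∀ H ∈ V, ∃ e, H.IsHomogeneous e)
    (hn : DimLE K V n)
    -- the degrees
    (d : Fin q → ℕ) (hd : ∀ i, 0 < d i) (hq : n + 2 ≤ q) :
    -- at most `2 (q - n - 1)` of the degrees are equal to `1`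
    ((Finset.univ.filter fun i => d i = 1).card ≤ 2 * (q - n - 1) → Conclusion K V d) ∧
    -- for `1 ≤ m ≤ n`, the sum of any `q - 1 - m` of the degrees is at least `n - m + n / m`
    ((∀ m, 1 ≤ m → m ≤ n → ∀ B : Finset (Fin q), B.card = q - 1 - m →
      n + m * (n - m) ≤ m * ∑ b ∈ B, d b) → Conclusion K V d) :=
  ⟨fun h => conclusion hV hn hd hq (Pool.Agent.NH29.GN.Fn.num_of_few hd hq (by omega)),
    fun h => conclusion hV hn hd hq
      (Pool.Agent.NH29.GN.Fn.num_of_sum hq fun m h1 h2 B hB => h m h1 h2 B (by omega))⟩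

end Pool.Agent.Results.MP_26d9ad_nt.GeneralComplements
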