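import Pool.Agent.NH29.GN.Hi3

/-!
MP_26d9ad_nt, Q1: a height inequality without exceptional set on the complements of `n + 2` or more
Zariski-general hypersurface sections of an arbitrary projective variety of dimension `n`, and of
its general complete intersections; uniform height bounds for the integral points.

Let `k` be a number field. Let `V` be a closed subset of projective space, given by forms with
coefficients in `k`, of dimension at most `n`: there are `n + 1` linear forms over `k` without
common zero on `V`. Let `q ≥ n + 2`, and let `d_1, …, d_q` be positive integers, such that at most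
`2 (q - n - 1)` of them are equal to `1` (for `q = n + 2`: at most two of them), or such that for
`1 ≤ m ≤ n` the sum of any `q - 1 - m` of them is at least `n - m + n / m`.

THEOREM. There is a nonzero polynomial `Φ`, with coefficients in `k`, in the coefficients of `q`
forms of degrees `d_1, …, d_q`, with the following property. For all number fields `κ` which contain
`k` and all finite sets `S` of finite places of `κ` there is a constant `A` such that
  `h (x) ≤ A (1 + ∑ h (F_b) + ∑_{b ∉ C} N_S (F_b, x))`
for all forms `F = (F_1, …, F_q)` of degrees `d_1, …, d_q` over `κ` with `Φ (F) ≠ 0`, all proper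
subsets `C` of `{1, …, q}`, and all `κ`-points `x` of
  `U = {x ∈ V : F_c (x) = 0 for c ∈ C, F_b (x) ≠ 0 for b ∉ C}`.
Here `h (x)` is the (logarithmic) height of the point `x`, `h (F_b)` is the height of the point of
projective space given by the coefficients of `F_b`, and `N_S (F_b, x)` is the counting function of
the hypersurface `F_b = 0`, that is, the sum over the finite places `v` outside of `S` of
  `log (|F_b|_v |x|_v ^ {d_b} / |F_b (x)|_v) ≥ 0`.

For points `x` which are integral over the ring of `S`-integers, with respect to the divisor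
`F_b = 0`, `b ∉ C`, the terms `N_S (F_b, x)` vanish, or are bounded, if one takes into account the
choice of the model. So the height of the integral points of `U` is at most `A (1 + h (F))`, a bound
which is linear in the height of `F`, and uniform in `F`, and there are only finitely many integral
points, and only finitely many points with `∑ N_S (F_b, x) ≤ δ h (x)`, `δ < 1 / A`. There is no
exceptional set.
-/

set_option autoImplicit false

namespace Pool.Agent.Results.MP_26d9ad_nt.HeightInequality

open MvPolynomial Height NumberField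

variable {k : Type} [Field k] {M q : ℕ}

/-- The closed subset of the projective space of dimension `M` given by the forms in `V` has
dimension at most `n`: there are `n + 1` linear forms without common zero on it. -/
def DimLE (V : Set (MvPolynomial (Fin (M + 1)) k)) (n : ℕ) : Prop :=
  ∃ ℓ : Fin (n + 1) → MvPolynomial (Fin (M + 1)) k, (∀ j, (ℓ j).IsHomogeneous 1) ∧
    ∀ y : Fin (M + 1) → AlgebraicClosure k,
      (∀ H ∈ V, aeval y H = 0) → (∀ j, aeval y (ℓ j) = 0) → y = 0

/-- The indices of the coefficients of `q` forms of degrees `d i` in `M + 1` variables. -/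
abbrev Index (M : ℕ) {q : ℕ} (d : Fin q → ℕ) : Type :=
  (i : Fin q) × {β : Fin (M + 1) →₀ ℕ // β.degree = d i}

/-- `F` is a family of forms of degrees `d i`, and `Φ (F) ≠ 0`. -/
def General {κ : Type} [Field κ] [Algebra k κ] {d : Fin q → ℕ} (Φ : MvPolynomial (Index M d) k)
    (F : Fin q → MvPolynomial (Fin (M + 1)) κ) : Prop :=
  (∀ i, (F i).IsHomogeneous (d i)) ∧ aeval (fun s : Index M d => coeff s.2.1 (F s.1)) Φ ≠ 0

/-- The family of the coefficients of a form of degree `e`. -/
def coeffs {κ : Type} [Field κ] (e : ℕ) (F : MvPolynomial (Fin (M + 1)) κ) :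
    {β : Fin (M + 1) →₀ ℕ // β.degree = e} → κ :=
  fun β => coeff β.1 F

/-- The counting function `N_S (F, x)` of the hypersurface `F = 0` at the point `x`, where `F` is a
form of degree `e`: the sum over the finite places `v` outside of `S` of
`log (|F|_v |x|_v ^ e / |F (x)|_v)`. -/
noncomputable def counting {κ : Type} [Field κ] [NumberField κ] (S : Finset (FinitePlace κ))
    (e : ℕ) (F : MvPolynomial (Fin (M + 1)) κ) (x : Fin (M + 1) → κ) : ℝ :=
  ∑ᶠ v : {v : FinitePlace κ // v ∉ S},
    Real.log ((⨆ β, v.1 (coeffs e F β)) * (⨆ a, v.1 (x a)) ^ e / v.1 (eval x F))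

/-- The conclusion of the theorem. -/
def Conclusion (V : Set (MvPolynomial (Fin (M + 1)) k)) (d : Fin q → ℕ) : Prop :=
  ∃ Φ : MvPolynomial (Index M d) k, Φ ≠ 0 ∧
    ∀ (κ : Type) [Field κ] [NumberField κ] [Algebra k κ] (S : Finset (FinitePlace κ)),
      ∃ A : ℝ, ∀ F : Fin q → MvPolynomial (Fin (M + 1)) κ, General Φ F →
        ∀ C : Finset (Fin q), C ≠ Finset.univ → ∀ x : Fin (M + 1) → κ, x ≠ 0 →
          (∀ H ∈ V, aeval x H = 0) → (∀ c ∈ C, eval x (F c) = 0) →
          (∀ b, b ∉ C → eval x (F b) ≠ 0) →
          logHeight x ≤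
            A * (1 + ∑ b, logHeight (coeffs (d b) (F b)) + ∑ b ∈ Cᶜ, counting S (d b) (F b) x)

section Proof

open Pool.Agent.NH29.GN

theorem conclusion [NumberField k] {n : ℕ} {V : Set (MvPolynomial (Fin (M + 1)) k)}
    (hV : ∀ H ∈ V, ∃ e, H.IsHomogeneous e) (hn : DimLE V n) {d : Fin q → ℕ} (hd : ∀ i, 1 ≤ d i)
    (hq : n + 2 ≤ q) (h : ∀ C : Finset (Fin q), C ≠ Finset.univ → Num2 n d C) :
    Conclusion V d := by
  classical
  obtain ⟨ℓ, hℓ, hℓ0⟩ := hn
  obtain ⟨Φ, hΦ, h1⟩ := Hi.hi3 hV hℓ (Fn.noZero_of_points hℓ0) (by omega) hd h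
  refine ⟨Φ, hΦ, fun κ _ _ _ S => ?_⟩
  obtain ⟨A, hA⟩ := h1 κ S
  refine ⟨A, fun F hF C hC x hx hxV hxC hxo => ?_⟩
  have h2 := hA (fun s : Idx M d => coeff s.2.1 (F s.1)) hF.2 C hC x ⟨hx, hxV, fun c hc => by
    rw [Fn.fv_eq hF.1]
    exact hxC c hc, fun b hb => by
    rw [Fn.fv_eq hF.1]
    exact hxo b hb⟩
  refine h2.trans (le_of_eq ?_)
  have h3 : ∀ b, cnt S (fun β : Mon M (d b) => coeff β.1 (F b)) x = counting S (d b) (F b) x := by
    intro b
    unfold cnt counting
    refine finsum_congr fun v => ?_
    have h4 : ∑ β : Mon M (d b), coeff β.1 (F b) * val x β.1 = eval x (F b) := by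
      rw [← Fn.fv_eq hF.1]
      rfl
    rw [h4]
    rfl
  congr 2
  exact Finset.sum_congr rfl fun b _ => h3 b

end Proof

theorem result {k : Type} [Field k] [NumberField k] {M n q : ℕ}
    -- the variety
    (V : Set (MvPolynomial (Fin (M + 1)) k)) (hV : ∀ H ∈ V, ∃ e, H.IsHomogeneous e)
    (hn : DimLE V n)
    -- the degrees
    (d : Fin q → ℕ) (hd : ∀ i, 0 < d i) (hq : n + 2 ≤ q) :
    -- at most `2 (q - n - 1)` of the degrees are equal to `1`
    ((Finset.univ.filter fun i => d i = 1).card ≤ 2 * (q - n - 1) → Conclusion V d) ∧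
    -- for `1 ≤ m ≤ n`, the sum of any `q - 1 - m` of the degrees is at least `n - m + n / m`
    ((∀ m, 1 ≤ m → m ≤ n → ∀ B : Finset (Fin q), B.card = q - 1 - m →
      n + m * (n - m) ≤ m * ∑ b ∈ B, d b) → Conclusion V d) :=
  ⟨fun h => conclusion hV hn hd hq (Pool.Agent.NH29.GN.Fn.num_of_few hd hq (by omega)),
    fun h => conclusion hV hn hd hq
      (Pool.Agent.NH29.GN.Fn.num_of_sum hq fun m h1 h2 B hB => h m h1 h2 B (by omega))⟩

end Pool.Agent.Results.MP_26d9ad_nt.HeightInequality
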