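import Mathlib
import Pool.Agent.NH8.XF
import Pool.Agent.NH8.XCirc
import Pool.Agent.NH8.XSel
import Pool.Agent.NH8.XTrop

/-!
# Rational points on Kummer coverings of subvarieties of `A ^ r × G_m ^ s`

Let `V` be a variety in `A ^ r × A ^ s` given by (any number of) rational polynomials of degree at
most `D`, and let `n = (n_1, …, n_s)` be exponents.  We consider the rational points `(x, y)` of
height at most `Y`, with nonzero `y_i`, of the Kummer covering of `V`, that is `(x, y ^ n) ∈ V`,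
such that `(x, y ^ n)` is not on a curve `T ↦ (x, T ^ w z)`, `w ≠ 0`, contained in `V`.
-/

set_option autoImplicit false

open MvPolynomial

namespace Pool.Agent.Results.MP_26d9ad_nt.KummerCoverings

/-- the height of the rational number `q` is at most `Y` -/
def HeightLe (Y : ℕ) (q : ℚ) : Prop := |q.num| ≤ (Y : ℤ) ∧ q.den ≤ Y

/-- rational points of `A ^ r × A ^ s` -/
abbrev Pt (r s : ℕ) : Type := (Fin r → ℚ) × (Fin s → ℚ)

variable {r s : ℕ}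

/-- the rational points of the variety given by the polynomials in `𝒢` -/
def Zeros (𝒢 : Set (MvPolynomial (Fin r ⊕ Fin s) ℚ)) : Set (Pt r s) :=
  {P | ∀ G ∈ 𝒢, eval (Sum.elim P.1 P.2) G = 0}

/-- the point `(x, z)` is on a curve `T ↦ (x, T ^ w z)`, `w ≠ 0`, contained in the variety -/
def Special (𝒢 : Set (MvPolynomial (Fin r ⊕ Fin s) ℚ)) (P : Pt r s) : Prop :=
  ∃ w : Fin s → ℤ, w ≠ 0 ∧ ∀ t : ℚ, t ≠ 0 → (P.1, fun i => t ^ w i * P.2 i) ∈ Zeros 𝒢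

/-- the point `(x, y ^ n)` -/
def power (n : Fin s → ℕ) (P : Pt r s) : Pt r s := (P.1, fun i => P.2 i ^ n i)

/-- the rational points `(x, y)` of height at most `Y` with nonzero `y i` such that `(x, y ^ n)` is
a point of the variety which is not special -/
def points (n : Fin s → ℕ) (Y : ℕ) (𝒢 : Set (MvPolynomial (Fin r ⊕ Fin s) ℚ)) : Set (Pt r s) :=
  {P | (∀ i, HeightLe Y (P.1 i)) ∧ (∀ i, P.2 i ≠ 0 ∧ HeightLe Y (P.2 i)) ∧
    power n P ∈ Zeros 𝒢 ∧ ¬ Special 𝒢 (power n P)}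

/-- the exponents are at most `Y ^ δ`, and their greatest common divisor is at least `R` -/
def Exps (R : ℕ) (δ : ℝ) (Y : ℕ) (n : Fin s → ℕ) : Prop :=
  R ≤ Finset.univ.gcd n ∧ ∀ i, 0 < n i ∧ (n i : ℝ) ≤ (Y : ℝ) ^ δ

/-- **Few ratios and few values.** -/
def FewRatios : Prop := ∀ r s D : ℕ, ∃ C : ℕ, ∀ ε : ℝ, 0 < ε → ∃ (R : ℕ) (δ : ℝ), 0 < R ∧ 0 < δ ∧
  ∀ Y : ℕ, 1 ≤ Y → ∃ E : Finset (Fin s → ℚ), (E.card : ℝ) ≤ (Y : ℝ) ^ ε ∧
    ∀ n : Fin s → ℕ, Exps R δ Y n → ∀ 𝒢 : Set (MvPolynomial (Fin r ⊕ Fin s) ℚ),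
      (∀ G ∈ 𝒢, G.totalDegree ≤ D) →
      (∃ 𝒮 : Finset (Set (Pt r s)), 𝒮.card ≤ C ∧ (∀ P ∈ points n Y 𝒢, ∃ T ∈ 𝒮, P ∈ T) ∧
        ∀ T ∈ 𝒮, ∀ P ∈ T, ∀ Q ∈ T, (fun i => P.2 i / Q.2 i) ∈ E) ∧
      ∃ F : Finset (Fin s → ℚ), (F.card : ℝ) ≤ (Y : ℝ) ^ ε ∧ ∀ P ∈ points n Y 𝒢, P.2 ∈ F

/-- **Few translates.** -/
def FewTranslates : Prop := ∀ s D : ℕ, ∃ C : ℕ, ∀ ε : ℝ, 0 < ε → ∃ (R : ℕ) (δ : ℝ), 0 < R ∧ 0 < δ ∧
  ∀ Y : ℕ, 1 ≤ Y → ∃ 𝓛 : Finset (Set (MvPolynomial (Fin 0 ⊕ Fin s) ℚ)),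
    (𝓛.card : ℝ) ≤ (Y : ℝ) ^ ε ∧ (∀ ℋ ∈ 𝓛, ∀ H ∈ ℋ, H.totalDegree ≤ D) ∧
    ∀ n : Fin s → ℕ, Exps R δ Y n → ∀ 𝒢 : Set (MvPolynomial (Fin 0 ⊕ Fin s) ℚ),
      (∀ G ∈ 𝒢, G.totalDegree ≤ D) →
      ∃ 𝒮 : Finset (Pt 0 s × Set (MvPolynomial (Fin 0 ⊕ Fin s) ℚ)), 𝒮.card ≤ C ∧
        (∀ S ∈ 𝒮, S.1 ∈ points n Y 𝒢 ∧ S.2 ∈ 𝓛 ∧
          ∀ z ∈ Zeros S.2, (S.1.1, fun i => S.1.2 i ^ n i * z.2 i) ∈ Zeros 𝒢) ∧
        ∀ Q ∈ points n Y 𝒢, ∃ S ∈ 𝒮, (Q.1, fun i => (Q.2 i / S.1.2 i) ^ n i) ∈ Zeros S.2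

open Pool.Agent.NH8

theorem span_eq {D : ℕ} {𝒢 : Set (MvPolynomial (Fin r ⊕ Fin s) ℚ)}
    (h : ∀ G ∈ 𝒢, G.totalDegree ≤ D) :
    Ideal.span 𝒢 = Ideal.span {G | G ∈ Ideal.span 𝒢 ∧ G.totalDegree ≤ D} := by
  apply le_antisymm
  · exact Ideal.span_mono fun G hG => ⟨Ideal.subset_span hG, h G hG⟩
  · rw [Ideal.span_le]
    exact fun G hG => hG.1

theorem span_zero {𝒢 : Set (MvPolynomial (Fin r ⊕ Fin s) ℚ)} {P : Pt r s} (h : P ∈ Zeros 𝒢)
    {G : MvPolynomial (Fin r ⊕ Fin s) ℚ} (hG : G ∈ Ideal.span 𝒢) :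
    eval (Sum.elim P.1 P.2) G = 0 := by
  have hle : Ideal.span 𝒢 ≤ RingHom.ker (eval (Sum.elim P.1 P.2)) := by
    rw [Ideal.span_le]
    exact fun G hG => h G hG
  exact hle hG

theorem points_sub {n : Fin s → ℕ} {Y : ℕ} {𝒢 : Set (MvPolynomial (Fin r ⊕ Fin s) ℚ)} {P : Pt r s}
    (hP : P ∈ points n Y 𝒢) : P ∈ X.points n Y (Ideal.span 𝒢) := by
  obtain ⟨h1, h2, h3, h4⟩ := hP
  refine ⟨h1, h2, fun G hG => span_zero h3 hG, fun h5 => h4 ?_⟩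
  obtain ⟨w, hw, h6⟩ := h5
  exact ⟨w, hw, fun t ht G hG => h6 t ht G (Ideal.subset_span hG)⟩

/-- the vectors with the given absolute values -/
noncomputable def signs (E : Finset (Fin s → ℚ)) : Finset (Fin s → ℚ) := by
  classical
  exact (Finset.univ ×ˢ E).image fun z : (Fin s → Bool) × (Fin s → ℚ) =>
    fun i => if z.1 i then z.2 i else -z.2 i

theorem signs_card (E : Finset (Fin s → ℚ)) : (signs E).card ≤ 2 ^ s * E.card := by
  classical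
  unfold signs
  refine Finset.card_image_le.trans ?_
  rw [Finset.card_product, Finset.card_univ, Fintype.card_fun, Fintype.card_bool, Fintype.card_fin]

theorem mem_signs {E : Finset (Fin s → ℚ)} {ρ : Fin s → ℚ} (h : (fun i => |ρ i|) ∈ E) :
    ρ ∈ signs E := by
  classical
  unfold signs
  refine Finset.mem_image.2 ⟨(fun i => decide (0 ≤ ρ i), fun i => |ρ i|),
    Finset.mem_product.2 ⟨Finset.mem_univ _, h⟩, ?_⟩
  funext i
  by_cases h0 : 0 ≤ ρ i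
  · simp [h0, abs_of_nonneg h0]
  · simp [h0, abs_of_neg (not_le.1 h0)]

theorem exps_mono {R R' : ℕ} {δ δ' : ℝ} {Y : ℕ} {n : Fin s → ℕ} (hY : 1 ≤ Y) (hR : R' ≤ R)
    (hδ : δ ≤ δ') (h : Exps R δ Y n) : X.Exps R' δ' Y n := by
  refine ⟨hR.trans h.1, fun i => ⟨(h.2 i).1, (h.2 i).2.trans ?_⟩⟩
  exact Real.rpow_le_rpow_of_exponent_le (by exact_mod_cast hY) hδ

theorem few_ratios : FewRatios := by
  classical
  intro r s D
  refine ⟨X.Cc r s D, fun ε hε => ?_⟩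
  obtain ⟨R, δ, hR, hδ, H⟩ := X.pieces X.s_sel (X.s_trop X.s_circ) r s D (ε / 2) (by positivity)
  refine ⟨max R (X.Cc r s D * 2 ^ s), min δ (ε / 2), lt_max_of_lt_left hR,
    lt_min hδ (by positivity), fun Y hY => ?_⟩
  have hY1 : (1 : ℝ) ≤ (Y : ℝ) := by exact_mod_cast hY
  have hY0 : (0 : ℝ) < (Y : ℝ) := by linarith
  by_cases hsmall : (Y : ℝ) ^ (min δ (ε / 2)) < ((max R (X.Cc r s D * 2 ^ s) : ℕ) : ℝ)
  · refine ⟨∅, ?_, fun n hn => ?_⟩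
    · rw [Finset.card_empty, Nat.cast_zero]
      positivity
    · exact absurd (X.exps_le (lt_max_of_lt_left hR) hn) (not_le.2 hsmall)
  push Not at hsmall
  have hK : ((X.Cc r s D * 2 ^ s : ℕ) : ℝ) ≤ (Y : ℝ) ^ (ε / 2) := by
    calc ((X.Cc r s D * 2 ^ s : ℕ) : ℝ) ≤ ((max R (X.Cc r s D * 2 ^ s) : ℕ) : ℝ) := by
          exact_mod_cast le_max_right _ _
      _ ≤ _ := hsmall
      _ ≤ _ := Real.rpow_le_rpow_of_exponent_le hY1 (min_le_right _ _)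
  have hC1 : 1 ≤ X.Cc r s D := Nat.one_le_pow _ _ (Nat.succ_pos _)
  obtain ⟨E, hE1, hE2⟩ := H Y hY
  have hcard : ((X.Cc r s D * (signs E).card : ℕ) : ℝ) ≤ (Y : ℝ) ^ ε := by
    calc ((X.Cc r s D * (signs E).card : ℕ) : ℝ) ≤ ((X.Cc r s D * 2 ^ s : ℕ) : ℝ) * E.card := by
          have := Nat.mul_le_mul_left (X.Cc r s D) (signs_card E)
          rw [← mul_assoc] at this
          exact_mod_cast this
      _ ≤ (Y : ℝ) ^ (ε / 2) * (Y : ℝ) ^ (ε / 2) := mul_le_mul hK hE1 (by positivity) (by positivity)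
      _ = (Y : ℝ) ^ ε := by
          rw [← Real.rpow_add hY0]
          congr 1
          ring
  refine ⟨signs E, le_trans ?_ hcard, fun n hn 𝒢 h𝒢 => ?_⟩
  · exact_mod_cast Nat.le_mul_of_pos_left _ hC1
  obtain ⟨𝒮, h1, h2, h3, h4⟩ := hE2 n (exps_mono hY (le_max_left _ _) (min_le_left _ _) hn)
    (Ideal.span 𝒢) (span_eq h𝒢)
  have h4' : ∀ T ∈ 𝒮, ∀ P ∈ T, ∀ Q ∈ T, (fun i => P.2 i / Q.2 i) ∈ signs E :=
    fun T hT P hP Q hQ => mem_signs (h4 T hT P hP Q hQ)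
  refine ⟨⟨𝒮, h1, fun P hP => h3 P (points_sub hP), h4'⟩, ?_⟩
  refine ⟨𝒮.biUnion fun T => if h : T.Nonempty then
    (signs E).image fun ρ i => ρ i * h.choose.2 i else ∅, le_trans ?_ hcard, fun P hP => ?_⟩
  · have h5 : (𝒮.biUnion fun T => if h : T.Nonempty then
        (signs E).image fun ρ i => ρ i * h.choose.2 i else ∅).card ≤
        X.Cc r s D * (signs E).card := by
      refine Finset.card_biUnion_le.trans ?_
      calc ∑ T ∈ 𝒮, (if h : T.Nonempty then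
            (signs E).image fun ρ i => ρ i * h.choose.2 i else ∅).card ≤
            ∑ _T ∈ 𝒮, (signs E).card := Finset.sum_le_sum fun T _ => by
              split_ifs
              · exact Finset.card_image_le
              · rw [Finset.card_empty]
                exact Nat.zero_le _
        _ = 𝒮.card * (signs E).card := by rw [Finset.sum_const, smul_eq_mul]
        _ ≤ _ := Nat.mul_le_mul_right _ h1
    exact_mod_cast h5
  · obtain ⟨T, hT, hPT⟩ := h3 P (points_sub hP)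
    refine Finset.mem_biUnion.2 ⟨T, hT, ?_⟩
    have hne : T.Nonempty := ⟨P, hPT⟩
    rw [dif_pos hne]
    refine Finset.mem_image.2 ⟨fun i => P.2 i / hne.choose.2 i, h4' T hT P hPT _ hne.choose_spec, ?_⟩
    funext i
    exact div_mul_cancel₀ _ ((h2 T hT hne.choose_spec).2.1 i).1

theorem scale {σ : Type} (G : MvPolynomial σ ℚ) (a : σ → ℚ) :
    ∃ H : MvPolynomial σ ℚ, H.totalDegree ≤ G.totalDegree ∧
      ∀ z : σ → ℚ, eval z H = eval (fun i => a i * z i) G := by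
  classical
  refine ⟨∑ m ∈ G.support, monomial m (G.coeff m * ∏ i ∈ m.support, a i ^ m i), ?_, fun z => ?_⟩
  · refine totalDegree_finsetSum_le fun m hm => ?_
    exact (totalDegree_monomial_le _ _).trans (le_totalDegree hm)
  · rw [map_sum, eval_eq]
    refine Finset.sum_congr rfl fun m _ => ?_
    rw [eval_monomial, Finsupp.prod, mul_assoc, ← Finset.prod_mul_distrib]
    congr 1
    exact Finset.prod_congr rfl fun i _ => (mul_pow _ _ _).symm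

theorem sub_points {n : Fin s → ℕ} {Y : ℕ} {𝒢 : Set (MvPolynomial (Fin r ⊕ Fin s) ℚ)} {P : Pt r s}
    (hP : P ∈ X.points n Y (Ideal.span 𝒢)) : P ∈ points n Y 𝒢 := by
  obtain ⟨h1, h2, h3, h4⟩ := hP
  refine ⟨h1, h2, fun G hG => h3 G (Ideal.subset_span hG), fun h5 => h4 ?_⟩
  obtain ⟨w, hw, h6⟩ := h5
  exact ⟨w, hw, fun t ht G hG => span_zero (h6 t ht) hG⟩

/-- the polynomials of degree at most `D` which vanish at the points -/
def eqs (D : ℕ) {B : Type} (f : B → Pt 0 s) : Set (MvPolynomial (Fin 0 ⊕ Fin s) ℚ) :=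
  {H | H.totalDegree ≤ D ∧ ∀ b, eval (Sum.elim (f b).1 (f b).2) H = 0}

/-- the translate of a piece -/
theorem translate {D Y : ℕ} {n : Fin s → ℕ} {𝒢 : Set (MvPolynomial (Fin 0 ⊕ Fin s) ℚ)}
    (h𝒢 : ∀ G ∈ 𝒢, G.totalDegree ≤ D) {T : Set (Pt 0 s)} (hT : T ⊆ points n Y 𝒢) {P : Pt 0 s}
    (hP : P ∈ T) : ∃ q : X.Bx 0 s D → Pt 0 s, (∀ b, q b ∈ T) ∧
      (∀ z ∈ Zeros (eqs D fun b => (((fun i => i.elim0), fun i => ((q b).2 i / P.2 i) ^ n i) : Pt 0 s)),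
        (P.1, fun i => P.2 i ^ n i * z.2 i) ∈ Zeros 𝒢) ∧
      ∀ Q ∈ T, (Q.1, fun i => (Q.2 i / P.2 i) ^ n i) ∈
        Zeros (eqs D fun b => (((fun i => i.elim0), fun i => ((q b).2 i / P.2 i) ^ n i) : Pt 0 s)) := by
  obtain ⟨q, hq1, hq2⟩ := X.s_sel (X.Bx 0 s D) (Pt 0 s)
    (fun p Q => X.val p (Sum.elim Q.1 fun i => (Q.2 i / P.2 i) ^ n i)) T ⟨P, hP⟩
  have hel : ∀ a : Fin 0 → ℚ, (fun i => i.elim0 : Fin 0 → ℚ) = a := fun a => Subsingleton.elim _ _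
  refine ⟨q, hq1, fun z hz G hG => ?_, fun Q hQ H hH => ?_⟩
  · obtain ⟨H, hH1, hH2⟩ := scale G (Sum.elim (fun _ => 1) fun i => P.2 i ^ n i)
    have hH : H ∈ eqs D fun b => (((fun i => i.elim0), fun i => ((q b).2 i / P.2 i) ^ n i) :
        Pt 0 s) := by
      refine ⟨hH1.trans (h𝒢 G hG), fun b => ?_⟩
      rw [hH2]
      have h1 := (hT (hq1 b)).2.2.1 G hG
      refine Eq.trans (congrArg (fun v => eval v G) ?_) h1
      funext i
      rcases i with i | i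
      · exact i.elim0
      · show P.2 i ^ n i * ((q b).2 i / P.2 i) ^ n i = (q b).2 i ^ n i
        rw [← mul_pow, mul_div_cancel₀ _ ((hT hP).2.1 i).1]
    have h2 := hz H hH
    rw [hH2] at h2
    refine Eq.trans (congrArg (fun v => eval v G) ?_) h2
    funext i
    rcases i with i | i
    · exact i.elim0
    · rfl
  · obtain ⟨c, hc⟩ := X.exists_poly hH.1
    have h1 := hq2 c (fun k => by
      have h2 := hH.2 k
      rw [← hc, X.eval_poly, hel (q k).1] at h2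
      exact h2) Q hQ
    rw [← hc, X.eval_poly]
    exact h1

theorem few_translates : FewTranslates := by
  classical
  intro s D
  refine ⟨X.Cc 0 s D, fun ε hε => ?_⟩
  obtain ⟨b, hb⟩ : ∃ b : ℕ, b = Fintype.card (X.Bx 0 s D) := ⟨_, rfl⟩
  obtain ⟨ε', hε'⟩ : ∃ ε' : ℝ, ε' = ε / (4 * (s + b + 1)) := ⟨_, rfl⟩
  have hsb : (0 : ℝ) < 4 * (s + b + 1) := by positivity
  have hε'0 : 0 < ε' := by
    rw [hε']
    positivity
  have hε'1 : ε' * (4 * (s + b + 1)) = ε := by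
    rw [hε']
    field_simp
  obtain ⟨R, δ, hR, hδ, H⟩ := X.pieces X.s_sel (X.s_trop X.s_circ) 0 s D ε' hε'0
  refine ⟨max R (2 ^ s), min δ ε', lt_max_of_lt_left hR, lt_min hδ hε'0, fun Y hY => ?_⟩
  have hY1 : (1 : ℝ) ≤ (Y : ℝ) := by exact_mod_cast hY
  have hY0 : (0 : ℝ) < (Y : ℝ) := by linarith
  by_cases hsmall : (Y : ℝ) ^ (min δ ε') < ((max R (2 ^ s) : ℕ) : ℝ)
  · refine ⟨∅, ?_, fun ℋ h => absurd h (Finset.notMem_empty _), fun n hn => ?_⟩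
    · rw [Finset.card_empty, Nat.cast_zero]
      positivity
    · exact absurd (X.exps_le (lt_max_of_lt_left hR) hn) (not_le.2 hsmall)
  push Not at hsmall
  have hK : ((2 ^ s : ℕ) : ℝ) ≤ (Y : ℝ) ^ ε' := by
    calc ((2 ^ s : ℕ) : ℝ) ≤ ((max R (2 ^ s) : ℕ) : ℝ) := by
          exact_mod_cast le_max_right _ _
      _ ≤ _ := hsmall
      _ ≤ _ := Real.rpow_le_rpow_of_exponent_le hY1 (min_le_right _ _)
  obtain ⟨E, hE1, hE2⟩ := H Y hY
  obtain ⟨M, hM⟩ : ∃ M : ℕ, M = ⌊(Y : ℝ) ^ (min δ ε')⌋₊ := ⟨_, rfl⟩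
  have hM' : (M : ℝ) ≤ (Y : ℝ) ^ ε' := by
    rw [hM]
    exact (Nat.floor_le (by positivity)).trans
      (Real.rpow_le_rpow_of_exponent_le hY1 (min_le_right _ _))
  have hsE : ((signs E).card : ℝ) ≤ (Y : ℝ) ^ (2 * ε') := by
    calc ((signs E).card : ℝ) ≤ ((2 ^ s : ℕ) : ℝ) * E.card := by exact_mod_cast signs_card E
      _ ≤ (Y : ℝ) ^ ε' * (Y : ℝ) ^ ε' := mul_le_mul hK hE1 (by positivity) (by positivity)
      _ = _ := by
          rw [← Real.rpow_add hY0]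
          congr 1
          ring
  obtain ⟨𝓛, h𝓛⟩ : ∃ 𝓛 : Finset (Set (MvPolynomial (Fin 0 ⊕ Fin s) ℚ)), 𝓛 =
      ((Fintype.piFinset fun _ : Fin s => Finset.Icc 1 M) ×ˢ
        (Fintype.piFinset fun _ : X.Bx 0 s D => signs E)).image fun z =>
        eqs D fun b => (((fun i => i.elim0), fun i => z.2 b i ^ z.1 i) : Pt 0 s) := ⟨_, rfl⟩
  refine ⟨𝓛, ?_, ?_, fun n hn 𝒢 h𝒢 => ?_⟩
  · have h1 : (𝓛.card : ℝ) ≤ (M : ℝ) ^ s * ((signs E).card : ℝ) ^ b := by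
      have h2 : 𝓛.card ≤ M ^ s * (signs E).card ^ b := by
        rw [h𝓛]
        refine Finset.card_image_le.trans (le_of_eq ?_)
        rw [Finset.card_product, Fintype.card_piFinset, Fintype.card_piFinset, Finset.prod_const,
          Finset.prod_const, Finset.card_univ, Finset.card_univ, Fintype.card_fin, ← hb,
          Nat.card_Icc, Nat.add_sub_cancel]
      exact_mod_cast h2
    calc (𝓛.card : ℝ) ≤ (M : ℝ) ^ s * ((signs E).card : ℝ) ^ b := h1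
      _ ≤ ((Y : ℝ) ^ ε') ^ s * ((Y : ℝ) ^ (2 * ε')) ^ b :=
          mul_le_mul (pow_le_pow_left₀ (by positivity) hM' s)
            (pow_le_pow_left₀ (by positivity) hsE b) (by positivity) (by positivity)
      _ = (Y : ℝ) ^ (ε' * s + 2 * ε' * b) := by
          rw [← Real.rpow_natCast, ← Real.rpow_natCast, ← Real.rpow_mul hY0.le,
            ← Real.rpow_mul hY0.le, ← Real.rpow_add hY0]
      _ ≤ (Y : ℝ) ^ ε := Real.rpow_le_rpow_of_exponent_le hY1 (by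
          have h3 : (0 : ℝ) ≤ ε' * s := by positivity
          have h4 : (0 : ℝ) ≤ ε' * b := by positivity
          rw [← hε'1]
          nlinarith)
  · intro ℋ hℋ G hG
    rw [h𝓛] at hℋ
    obtain ⟨z, -, rfl⟩ := Finset.mem_image.1 hℋ
    exact hG.1
  obtain ⟨𝒮, h1, h2, h3, h4⟩ := hE2 n (exps_mono hY (le_max_left _ _) (min_le_left _ _) hn)
    (Ideal.span 𝒢) (span_eq h𝒢)
  have key : ∀ T : Set (Pt 0 s), T ∈ 𝒮 ∧ T.Nonempty →
      ∃ S : Pt 0 s × Set (MvPolynomial (Fin 0 ⊕ Fin s) ℚ), (S.1 ∈ points n Y 𝒢 ∧ S.2 ∈ 𝓛 ∧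
          ∀ z ∈ Zeros S.2, (S.1.1, fun i => S.1.2 i ^ n i * z.2 i) ∈ Zeros 𝒢) ∧
        ∀ Q ∈ T, (Q.1, fun i => (Q.2 i / S.1.2 i) ^ n i) ∈ Zeros S.2 := by
    rintro T ⟨hT, P, hP⟩
    have hTp : T ⊆ points n Y 𝒢 := fun Q hQ => sub_points (h2 T hT hQ)
    obtain ⟨q, hq1, hq2, hq3⟩ := translate h𝒢 hTp hP
    refine ⟨(P, _), ⟨hTp hP, ?_, hq2⟩, hq3⟩
    rw [h𝓛]
    refine Finset.mem_image.2 ⟨(n, fun b i => (q b).2 i / P.2 i), ?_, rfl⟩
    rw [Finset.mem_product, Fintype.mem_piFinset, Fintype.mem_piFinset]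
    refine ⟨fun i => ?_, fun b => mem_signs (h4 T hT _ (hq1 b) P hP)⟩
    rw [Finset.mem_Icc, hM]
    exact ⟨(hn.2 i).1, Nat.le_floor (hn.2 i).2⟩
  choose! S hS1 hS2 using key
  refine ⟨(𝒮.filter fun T => T.Nonempty).image S, ?_, ?_, fun Q hQ => ?_⟩
  · exact Finset.card_image_le.trans ((Finset.card_filter_le _ _).trans h1)
  · intro S' hS'
    obtain ⟨T, hT, rfl⟩ := Finset.mem_image.1 hS'
    exact hS1 T (Finset.mem_filter.1 hT)
  · obtain ⟨T, hT, hQT⟩ := h3 Q (points_sub hQ)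
    exact ⟨S T, Finset.mem_image_of_mem _ (Finset.mem_filter.2 ⟨hT, Q, hQT⟩),
      hS2 T ⟨hT, Q, hQT⟩ Q hQT⟩

theorem result : FewRatios ∧ FewTranslates := ⟨few_ratios, few_translates⟩

end Pool.Agent.Results.MP_26d9ad_nt.KummerCoverings
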