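import Pool.Agent.NH27.G.ConvV
import Pool.Agent.NH27.G.Form1
import Pool.Agent.NH27.G.Form2

/-!
MP_26d9ad_nt, Q1: integral points on complements of generic hypersurface sections in generic
intersections of an arbitrary projective variety with hypersurfaces, in an almost sharp range that
depends on the canonical class of the variety.

Let `K` be an algebraically closed field of characteristic `0`, and let `k` be a field contained in
`K`, with algebraic closure `k'` in `K`. Let `V` be an irreducible closed subvariety of projective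
space of dimension `n`, defined over `k'`, of dimension `m`. It is given by its function field `R`
and its generic point `ξ`, in homogeneous coordinates: the ratios of the coordinates of `ξ` generate
`R`, and `V` is defined by the forms over `k'` that vanish at `ξ`.

Let `F_a`, for `a` in a finite set `A`, be forms of degrees `d_a > 0` in `n + 1` variables over `K`
such that the ratios of the coefficients of `F_a` to one of them are, for all `a` together,
algebraically independent over `k`. Let `C` be a subset of `A` with at most `m - 2` elements, let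
`V_C` be the intersection of `V` with the hypersurfaces `F_c = 0`, `c ∈ C`, let `D` be the union of
the hypersurfaces `F_b = 0`, `b ∉ C`, and let `U = V_C ∖ D`. Let `s = ∑ d_a + |C|`, the sum of the
`d_b`, `b ∉ C`, and of the `d_c + 1`, `c ∈ C`.

(A) Suppose that there is a nonzero regular form of degree `m` on `V` with values in `O(j)` (for a
resolution `V'` of `V`, a nonzero section of `K_{V'} + j L`, where `L` is the pull-back of `O(1)`),
and that `2 m - 1 ≤ s` and `m + j ≤ s`. Then:
(1) all closed subvarieties of `U` of positive dimension are of log general type (the hypothesis of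
    the conjecture);
(2) `U` has only finitely many points over every finitely generated subring of `K` (over the
    integers; this is the conclusion of the conjecture);
(3) for every subring `S` of a finitely generated algebra over `k'`, all but finitely many of the
    points of `U` over `S` lie on finitely many lines contained in `V_C`, which meet `D` in at least
    three points.
Moreover, (0) for all `s`, `C`, and `w > 0` with `2 m ≤ s + w` and `m + j + 1 ≤ s + w`, the closed
subvarieties of `U` of dimension `w` are of log general type.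

(B) For every `V`, (1), (2) and (3) hold if `2 m + 1 ≤ s`.

(C) If `V` is a smooth hypersurface of degree `e` (so `n = m + 1`), then (1), (2) and (3) hold if
`2 m - 1 ≤ s` and `2 m + 2 - e ≤ s`; so for `e ≥ 3` they hold if `2 m - 1 ≤ s`.

(D) If `V` is a surface that contains a line that is not contained in `D` (for instance, a line
defined over `k'`), `C` is empty and (A) holds for `V` with `j ≤ 1` (for instance, `V` is a smooth
surface of degree at least `3` in space), then (1) and (2) both are true if and only if `3 ≤ s`. So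
the conjecture is true for `V ∖ D`, for all degrees.

Regularity of the form `ω` with values in `O(j)`: for every valuation ring `O` of `R` that contains
`k'`, and every `i` such that all `ξ_l / ξ_i` are in `O`, the form `ω / ξ_i ^ j` is a sum of forms
`a df_1 ∧ ... ∧ df_m` with `a` and all `f_v` in `O`. This holds for the sections of `K_{V'} + j L`
on a smooth projective model `V'`, since `O` contains the local ring of a point of `V'`.

The points of `U` over a ring `S` are the points with coordinates in the field of fractions of `S`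
such that all quotients of monomials of degree `d_b` by `F_b`, `b ∉ C`, are in `S`.

For the subvarieties, `L` is the function field of the subvariety, or a finite extension of it, `w`
is its dimension, and `x` is its generic point, in homogeneous coordinates. A prime divisor `Q` over
the closure of the subvariety has its centre outside `U` if
`d_b min_i ord_Q (x_i) < ord_Q (F_b (x))` for some `b` not in `C`; `pord Q x` is the minimum of the
orders `ord_Q (x_i)`.
-/

set_option autoImplicit false

namespace Pool.Agent.Results.MP_26d9ad_nt.SectionsOfVarieties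

open MvPolynomial FF Pool.Agent.W603.PV Pool.Agent.W602.GT
open LinearAlgebra.Projectivization

/-- The form `ω` on the variety with generic point `ξ` is regular, with values in `O(j)`. -/
def RegularForm (k' : Type) [Field k'] {R : Type} [Field R] [Algebra k' R] {n m : ℕ}
    (ξ : Fin (n + 1) → R) (j : ℕ) (ω : (Derivation k' R R) [⋀^Fin m]→ₗ[R] R) : Prop :=
  ∀ O : ValuationSubring R, (∀ c : k', algebraMap k' R c ∈ O) → ∀ i, ξ i ≠ 0 →
    (∀ l, ξ l / ξ i ∈ O) → ∃ (N : ℕ) (a : Fin N → R) (f : Fin N → Fin m → R),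
      (∀ α, a α ∈ O ∧ ∀ v, f α v ∈ O) ∧ ∀ δ : Fin m → Derivation k' R R,
        ω δ / ξ i ^ j = ∑ α, a α * Matrix.det (Matrix.of fun u v => δ u (f α v))

/-- The point `x` of projective space, with coordinates in an extension of `K`, is on the variety
with generic point `ξ`. -/
def OnVariety {k' R K L : Type} [Field k'] [Field R] [Algebra k' R] [Field K] [Algebra k' K]
    [Field L] [Algebra K L] {n : ℕ} (ξ : Fin (n + 1) → R) (x : Fin (n + 1) → L) : Prop :=
  ∀ (f : MvPolynomial (Fin (n + 1)) k') (e : ℕ), f.IsHomogeneous e → aeval ξ f = 0 →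
    aeval x (map (algebraMap k' K) f) = 0

/-- The points over the ring `S` of `U`. -/
def IntegralPoints (k' : Type) {R K A : Type} [Field k'] [Field R] [Algebra k' R] [Field K]
    [Algebra k' K] {n : ℕ} (ξ : Fin (n + 1) → R) (F : A → MvPolynomial (Fin (n + 1)) K)
    (d : A → ℕ) (C : Finset A) (S : Subring K) : Set (ℙ K (Fin (n + 1) → K)) :=
  {p | ∃ (x : Fin (n + 1) → K) (hx : x ≠ 0), p = Projectivization.mk K x hx ∧
    (∀ i, x i ∈ Subfield.closure (S : Set K)) ∧
    OnVariety (k' := k') (K := K) ξ x ∧ (∀ c ∈ C, eval x (F c) = 0) ∧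
    ∀ b, b ∉ C → eval x (F b) ≠ 0 ∧
      ∀ I : Fin (n + 1) →₀ ℕ, I.degree = d b → (∏ i, x i ^ I i) / eval x (F b) ∈ S}

/-- A line, given by a vector space of dimension two, that is contained in `V_C`. -/
def IsLine (k' : Type) {R K A : Type} [Field k'] [Field R] [Algebra k' R] [Field K]
    [Algebra k' K] {n : ℕ} (ξ : Fin (n + 1) → R) (F : A → MvPolynomial (Fin (n + 1)) K)
    (C : Finset A) (W : Submodule K (Fin (n + 1) → K)) : Prop :=
  Module.finrank K W = 2 ∧ ∀ v ∈ W, OnVariety (k' := k') (K := K) ξ v ∧ ∀ c ∈ C, eval v (F c) = 0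

/-- The points of the line on `D`. -/
def Boundary {K A : Type} [Field K] {n : ℕ} (F : A → MvPolynomial (Fin (n + 1)) K) (C : Finset A)
    (W : Submodule K (Fin (n + 1) → K)) : Set (ℙ K (Fin (n + 1) → K)) :=
  {p | p.rep ∈ W ∧ ∃ b, b ∉ C ∧ eval p.rep (F b) = 0}

/-- `L` is (a finite extension of) the function field, and `x` the generic point, of a closed
subvariety of dimension `w` of `U`. -/
def Subvariety (k' : Type) {R K L A : Type} [Field k'] [Field R] [Algebra k' R] [Field K]
    [Algebra k' K] [Field L] [Algebra K L] {n : ℕ} (ξ : Fin (n + 1) → R)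
    (F : A → MvPolynomial (Fin (n + 1)) K) (C : Finset A) (w : ℕ) (x : Fin (n + 1) → L) : Prop :=
  (x ≠ 0 ∧ OnVariety (k' := k') (K := K) ξ x ∧ (∀ c ∈ C, aeval x (F c) = 0) ∧
    ∀ b, b ∉ C → aeval x (F b) ≠ 0) ∧
  Algebra.trdeg K L = w ∧ Algebra.IsAlgebraic (coords K x) L

/-- The subvariety with generic point `x` is of log general type. -/
def LogGT {K L A : Type} [Field K] [Field L] [Algebra K L] {n : ℕ}
    (F : A → MvPolynomial (Fin (n + 1)) K) (d : A → ℕ) (C : Finset A) (w : ℕ)
    (x : Fin (n + 1) → L) : Prop :=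
  LogGeneralType K L w fun Q : Place K L =>
    ∃ b, b ∉ C ∧ d b * pord Q x < Q.ord (aeval x (F b))

/-- (1) All closed subvarieties of `U` of positive dimension are of log general type. -/
def AllLogGT (k' : Type) {R K A : Type} [Field k'] [Field R] [Algebra k' R] [Field K]
    [Algebra k' K] {n : ℕ} (ξ : Fin (n + 1) → R) (F : A → MvPolynomial (Fin (n + 1)) K)
    (d : A → ℕ) (C : Finset A) : Prop :=
  ∀ (L : Type) [Field L] [Algebra K L] (w : ℕ) (x : Fin (n + 1) → L), 0 < w →
    Subvariety k' ξ F C w x → LogGT F d C w x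

/-- (2) There are only finitely many points of `U` over every finitely generated ring. -/
def AllFinite (k' : Type) {R K A : Type} [Field k'] [Field R] [Algebra k' R] [Field K]
    [Algebra k' K] {n : ℕ} (ξ : Fin (n + 1) → R) (F : A → MvPolynomial (Fin (n + 1)) K)
    (d : A → ℕ) (C : Finset A) : Prop :=
  ∀ (T : Finset K) (S : Subring K), S ≤ Subring.closure (T : Set K) →
    (IntegralPoints k' ξ F d C S).Finite

/-- The statements (1), (2) and (3). -/
def Conclusions (k' : Type) {R K A : Type} [Field k'] [Field R] [Algebra k' R] [Field K]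
    [Algebra k' K] {n : ℕ} (ξ : Fin (n + 1) → R) (F : A → MvPolynomial (Fin (n + 1)) K)
    (d : A → ℕ) (C : Finset A) : Prop :=
  AllLogGT k' ξ F d C ∧ AllFinite k' ξ F d C ∧
  -- (3) the points over the subrings of finitely generated algebras over `k'`
  ∀ (T : Finset K) (S : Subring K),
    S ≤ Subring.closure (Set.range (algebraMap k' K) ∪ (T : Set K)) →
    ∃ Λ : Set (Submodule K (Fin (n + 1) → K)), Λ.Finite ∧
      (∀ W ∈ Λ, IsLine k' ξ F C W ∧ 3 ≤ (Boundary F C W).encard) ∧
      {p | p ∈ IntegralPoints k' ξ F d C S ∧ ¬ ∃ W ∈ Λ, p.rep ∈ W}.Finite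

theorem result {k K : Type} [Field k] [Field K] [IsAlgClosed K] [CharZero K] [Algebra k K]
    {n m : ℕ}
    -- a projective variety of dimension `m` over the algebraic closure of `k`: the function field
    -- and the generic point
    {R : Type} [Field R] [Algebra (algebraicClosure k K) R] (ξ : Fin (n + 1) → R)
    (hξ : coords (algebraicClosure k K) ξ = ⊤)
    (hm : Algebra.trdeg (algebraicClosure k K) R = m)
    -- the equations are `F c = 0` for `c ∈ C`, and the other forms give the boundary
    {A : Type} [Fintype A] [DecidableEq A] {d : A → ℕ} (hd0 : ∀ a, 0 < d a) (C : Finset A)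
    -- the forms; the ratios of their coefficients are algebraically independent over `k`
    (F : A → MvPolynomial (Fin (n + 1)) K) (hF : ∀ a, (F a).IsHomogeneous (d a))
    (I0 : ∀ a, {I : Fin (n + 1) →₀ ℕ // I.degree = d a}) (h0 : ∀ a, (F a).coeff (I0 a).1 ≠ 0)
    (hgen : AlgebraicIndependent k
      fun p : (a : A) × {I : {I : Fin (n + 1) →₀ ℕ // I.degree = d a} // I ≠ I0 a} =>
        (F p.1).coeff p.2.1.1 / (F p.1).coeff (I0 p.1).1) :
    -- (A) varieties with a nonzero regular form with values in `O(j)`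
    (∀ (j : ℕ) (ω : (Derivation (algebraicClosure k K) R R) [⋀^Fin m]→ₗ[R] R), ω ≠ 0 →
      RegularForm (algebraicClosure k K) ξ j ω →
      (C.card + 2 ≤ m → 2 * m - 1 ≤ ∑ a, d a + C.card → m + j ≤ ∑ a, d a + C.card →
        Conclusions (algebraicClosure k K) ξ F d C) ∧
      ∀ (L : Type) [Field L] [Algebra K L] (w : ℕ) (x : Fin (n + 1) → L), 0 < w →
        2 * m ≤ ∑ a, d a + C.card + w → m + j + 1 ≤ ∑ a, d a + C.card + w →
        Subvariety (algebraicClosure k K) ξ F C w x → LogGT F d C w x) ∧
    -- (B) all varieties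
    (C.card + 2 ≤ m → 2 * m + 1 ≤ ∑ a, d a + C.card →
      Conclusions (algebraicClosure k K) ξ F d C) ∧
    -- (C) smooth hypersurfaces of degree `e`
    (n = m + 1 → ∀ (e : ℕ) (G : MvPolynomial (Fin (n + 1)) (algebraicClosure k K)), 0 < e →
      G.IsHomogeneous e → aeval ξ G = 0 →
      (∀ x : Fin (n + 1) → algebraicClosure k K, x ≠ 0 → eval x G = 0 →
        ∃ l, eval x (pderiv l G) ≠ 0) →
      C.card + 2 ≤ m → 2 * m - 1 ≤ ∑ a, d a + C.card → 2 * m + 2 ≤ ∑ a, d a + C.card + e →
      Conclusions (algebraicClosure k K) ξ F d C) ∧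
    -- (D) surfaces that contain a line: the conjecture for all degrees
    (∀ (j : ℕ) (ω : (Derivation (algebraicClosure k K) R R) [⋀^Fin m]→ₗ[R] R), ω ≠ 0 →
      RegularForm (algebraicClosure k K) ξ j ω → j ≤ 1 → m = 2 → C = ∅ → Nonempty A →
      (∃ W, IsLine (algebraicClosure k K) ξ F C W ∧ ∃ v ∈ W, ∀ b, eval v (F b) ≠ 0) →
      (AllLogGT (algebraicClosure k K) ξ F d C ↔ 3 ≤ ∑ a, d a) ∧
      (AllFinite (algebraicClosure k K) ξ F d C ↔ 3 ≤ ∑ a, d a)) := by
  have hac : IsAlgClosed (algebraicClosure k K) := (algebraicClosure.isAlgClosure k K).isAlgClosed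
  have hcz : CharZero (algebraicClosure k K) :=
    (RingHom.charZero_iff (algebraMap (algebraicClosure k K) K).injective).2 inferInstance
  have hind : AlgebraicIndependent (algebraicClosure k K)
      fun p : Pool.Agent.TH145.GC.Rt d (fun a => (I0 a).1) =>
        (F p.1).coeff p.2.1 / (F p.1).coeff (I0 p.1).1 := by
    refine AlgebraicIndependent.algebraicClosure ?_
    have h2 := hgen.comp (fun p : Pool.Agent.TH145.GC.Rt d (fun a => (I0 a).1) =>
      (⟨p.1, ⟨⟨p.2.1, p.2.2.1⟩, fun h => p.2.2.2 (congrArg Subtype.val h)⟩⟩ :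
        (a : A) × {I : {I : Fin (n + 1) →₀ ℕ // I.degree = d a} // I ≠ I0 a})) (by
        rintro ⟨a, ⟨I, hI⟩⟩ ⟨a', ⟨I', hI'⟩⟩ h
        have e1 : a = a' := congrArg Sigma.fst h
        subst e1
        have e2 := eq_of_heq (Sigma.mk.inj_iff.1 h).2
        have e3 : I = I' := congrArg (fun z => z.1.1) e2
        subst e3
        rfl)
    exact h2
  have hon : ∀ x : Fin (n + 1) → K, OnVariety (k' := algebraicClosure k K) (K := K) ξ x ↔
      Pool.Agent.NH27.G.OnV (algebraicClosure k K) ξ x := by
    intro x
    refine forall_congr' fun f => forall_congr' fun e => forall_congr' fun _ =>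
      forall_congr' fun _ => ?_
    rw [aeval_map_algebraMap]
  have hpts : ∀ S : Subring K, IntegralPoints (algebraicClosure k K) ξ F d C S =
      Pool.Agent.NH27.G.VIP (algebraicClosure k K) ξ F d C S := by
    intro S
    unfold IntegralPoints Pool.Agent.NH27.G.VIP
    simp only [hon]
  have hA : ∀ (j : ℕ) (ω : (Derivation (algebraicClosure k K) R R) [⋀^Fin m]→ₗ[R] R),
      Pool.Agent.NH27.G.TwForm (algebraicClosure k K) m j ξ ω →
      (C.card + 2 ≤ m → 2 * m - 1 ≤ ∑ a, d a + C.card → m + j ≤ ∑ a, d a + C.card →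
        Conclusions (algebraicClosure k K) ξ F d C) ∧
      ∀ (L : Type) [Field L] [Algebra K L] (w : ℕ) (x : Fin (n + 1) → L), 0 < w →
        2 * m ≤ ∑ a, d a + C.card + w → m + j + 1 ≤ ∑ a, d a + C.card + w →
        Subvariety (algebraicClosure k K) ξ F C w x → LogGT F d C w x := by
    intro j ω hω
    have hlog : ∀ (L : Type) [Field L] [Algebra K L] (w : ℕ) (x : Fin (n + 1) → L), 0 < w →
        2 * m ≤ ∑ a, d a + C.card + w → m + j + 1 ≤ ∑ a, d a + C.card + w →
        Subvariety (algebraicClosure k K) ξ F C w x → LogGT F d C w x := by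
      intro L _ _ w x hw h1 h2 hx
      exact Pool.Agent.NH27.G.main_log hω hξ hm hd0 F hF (fun a => (I0 a).1) h0 hind hw h1 h2
        hx.2.1 x hx.1.1 hx.2.2 hx.1.2.1 hx.1.2.2.1 hx.1.2.2.2
    refine ⟨fun hCm h1 h2 => ⟨?_, ?_, ?_⟩, hlog⟩
    · intro L _ _ w x hw hx
      exact hlog L w x hw (by omega) (by omega) hx
    · intro T S hS
      rw [hpts]
      exact Pool.Agent.NH27.G.main_fg hω hξ hm hd0 hCm h1 h2 F hF (fun a => (I0 a).1) h0 hind T S
        hS
    · intro T S hS
      obtain ⟨Λ, hΛ1, hΛ2, hΛ3⟩ := Pool.Agent.NH27.G.main_VIP hω hξ hm hd0 hCm h1 h2 F hF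
        (fun a => (I0 a).1) h0 hind T S hS
      refine ⟨Λ, hΛ1, fun W hW => ⟨⟨(hΛ2 W hW).1.1, fun v hv => ⟨(hon v).2 ((hΛ2 W hW).2 v hv),
        fun c hc => (hΛ2 W hW).1.2 c hc v hv⟩⟩, ?_⟩, ?_⟩
      · exact Pool.Agent.NH27.G.three_le hω hξ hm hd0 hCm h1 h2 F hF (fun a => (I0 a).1) h0 hind
          (hΛ2 W hW)
      · rw [hpts]
        exact hΛ3
  refine ⟨fun j ω hω0 hω => hA j ω ⟨hω0, hω⟩, fun hCm h1 => ?_, fun hn e G he hG hG0 hsm hCm
    h1 h2 => ?_, fun j ω hω0 hω hj hm2 hC hne hW => ?_⟩
  · obtain ⟨ω, hω⟩ := Pool.Agent.NH27.G.exists_minor_form (by omega) hξ hm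
    exact (hA (m + 1) ω hω).1 hCm (by omega) (by omega)
  · subst hn
    obtain ⟨ω, hω⟩ := Pool.Agent.NH27.G.exists_hyp_form (by omega) he hξ hm hG hG0 hsm
    exact (hA (m + 2 - e) ω hω).1 hCm h1 (by omega)
  · obtain ⟨W, hW, v, hv, hvb⟩ := hW
    obtain ⟨b0⟩ := hne
    subst hC
    have hpos : 3 ≤ ∑ a, d a → Conclusions (algebraicClosure k K) ξ F d ∅ := fun h3 =>
      (hA j ω ⟨hω0, hω⟩).1 (by rw [Finset.card_empty]; omega)
        (by rw [Finset.card_empty]; omega) (by rw [Finset.card_empty]; omega)
    have hWV : Pool.Agent.NH27.G.VLine (algebraicClosure k K) ξ F ∅ W :=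
      ⟨⟨hW.1, fun c hc => absurd hc (Finset.notMem_empty _)⟩, fun v hv => (hon v).1 (hW.2 v hv).1⟩
    have hv0 : v ≠ 0 := by
      rintro rfl
      apply hvb b0
      have h5 := Pool.Agent.TH145.GH.eval_smul_hom (hF b0) (0 : Fin (n + 1) → K) 0
      rw [smul_zero, zero_pow (hd0 b0).ne', zero_mul] at h5
      exact h5
    have hB : ¬ 3 ≤ ∑ a, d a →
        (Pool.Agent.Y741.Pts W ∩ Pool.Agent.Y741.Bd F ∅).encard ≤ 2 := by
      intro h3
      refine (Pool.Agent.NH27.G.card_bd hF hW.1 hv (fun b _ => hvb b) hv0).trans ?_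
      rw [Finset.compl_empty]
      have h4 : ∑ a, d a ≤ 2 := by omega
      exact_mod_cast h4
    refine ⟨⟨fun h => ?_, fun h3 => (hpos h3).1⟩, ⟨fun h => ?_, fun h3 => (hpos h3).2.1⟩⟩
    · by_contra h3
      obtain ⟨x, hx1, hx2, hx3⟩ := Pool.Agent.NH27.G.exl_notV hF hWV (hB h3)
      exact hx2 (h _ 1 x one_pos ⟨⟨hx1.1.1, hx3, hx1.1.2.1, hx1.1.2.2⟩, hx1.2⟩)
    · by_contra h3
      obtain ⟨T, hT⟩ := Pool.Agent.NH27.G.conv_V hF hd0 ⟨b0, Finset.notMem_empty _⟩ hWV (hB h3)
      rw [← hpts] at hT
      exact hT (h T _ le_rfl)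

end Pool.Agent.Results.MP_26d9ad_nt.SectionsOfVarieties
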